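import Pool.Agent.Y198.EX.Stm

/-!
# EX-F: zero-dimensional Noetherian F-pure rings are Frobenius split
(job of helper198, MP_234613_al)
-/

set_option autoImplicit false

namespace Pool.Agent.Y4.EX.F
open Pool.Agent.H42R3.FS Pool.Agent.Y198.EX TensorProduct

universe v

lemma smul_one_eq (p : ℕ) [Fact p.Prime] (R : Type) [CommRing R] [CharP R p] (r : R) :
    (r • (1 : Fs p R) : Fs p R) = (r ^ p : R) := by
  change (frobenius R p r) * (1 : R) = r ^ p
  rw [mul_one, frobenius_def]

lemma inj_of_pure (p : ℕ) [Fact p.Prime] (R : Type) [CommRing R] [CharP R p]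
    (h : IsFPure.{v} p R) (r : R) (hr : (r • (1 : Fs p R) : Fs p R) = 0) : r = 0 := by
  have h1 := h (ULift.{v} R)
  have h2 : (ULift.up r : ULift.{v} R) = 0 := by
    apply h1
    change (ULift.up r : ULift.{v} R) ⊗ₜ[R] (1 : Fs p R) = (0 : ULift.{v} R) ⊗ₜ[R] (1 : Fs p R)
    have h3 : (ULift.up r : ULift.{v} R) = r • (ULift.up 1 : ULift.{v} R) := by
      ext
      simp
    rw [h3, TensorProduct.smul_tmul, hr, TensorProduct.tmul_zero, TensorProduct.zero_tmul]
  exact congrArg ULift.down h2

theorem t : stmF.{v} := by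
  intro p _ R _ _ _ hdim hp
  have hinj := inj_of_pure.{v} p R hp
  have hred : IsReduced R := by
    rw [isReduced_iff_pow_one_lt p (Fact.out : p.Prime).one_lt]
    intro x hx
    exact hinj x (by rw [smul_one_eq, hx]; rfl)
  have hk : Ring.KrullDimLE 0 R := by
    rw [Ring.krullDimLE_iff]
    exact_mod_cast hdim
  have hart : IsArtinianRing R :=
    isArtinianRing_iff_isNoetherianRing_krullDimLE_zero.2 ⟨inferInstance, hk⟩
  have hss : IsSemisimpleRing R := IsArtinianRing.isSemisimpleRing_of_isReduced R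
  let i : R →ₗ[R] Fs p R := LinearMap.toSpanSingleton R (Fs p R) 1
  have hi : Function.Injective i := by
    rw [← LinearMap.ker_eq_bot, LinearMap.ker_eq_bot']
    intro r hr
    exact hinj r hr
  obtain ⟨φ, hφ⟩ := IsSemisimpleModule.extension_property i hi (LinearMap.id : R →ₗ[R] R)
  refine ⟨φ, ?_⟩
  have := LinearMap.congr_fun hφ 1
  simpa [i] using this

end Pool.Agent.Y4.EX.F
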